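import Mathlib
import Pool.Agent.H217R3.AK.Final
import Pool.Agent.H217R3.AK.Sharp

set_option autoImplicit false

/-! # The arithmetic Kakeya conjecture for additively structured sets

Let `S` be a finite set of rational slopes different from `-1` (the slope `∞` is always used as well).

1. For every finite nonempty `A ⊆ ℤ × ℤ` with `|A + A| ≤ K |A|` the inequality
   `|π_{-1}(A)| ^ |S| ≤ K ^ C |π_∞(A)| ∏_{r ∈ S} |π_r(A)|` holds, with `C` depending on `S` only.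
2. The inequality of the conjecture holds for all `A` with `|A + A| ≤ |A| ^ (1 + δ)`, `δ = δ(ε)`.
3. It holds for all `A` on which `x - y` is injective (the general case of the conjecture reduces to
   such sets) and which have at least `|A| ^ (3 - δ)` additive quadruples, `δ = δ(ε)`.
4. The exponent `(|S| + 1) / |S|` given by 1 cannot be lowered.

Ingredients: Plünnecke–Ruzsa inequality (Mathlib), a counting lemma for linear relations between
differences with vanishing projections, the Balog–Szemerédi–Gowers theorem (proved in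
`Pool.Agent.H217R3.AK.Bsg`). -/

open Finset
open scoped Pointwise

namespace Pool.Agent.Results.MP_169869_co.StructuredSets

/-- the projection `π_r(A) = {x + r y : (x, y) ∈ A}` -/
def proj (r : ℚ) (A : Finset (ℤ × ℤ)) : Finset ℚ :=
  A.image (fun p : ℤ × ℤ => (p.1 : ℚ) + r * (p.2 : ℚ))

/-- the projection `π_∞(A) = {y : (x, y) ∈ A}` -/
def projInf (A : Finset (ℤ × ℤ)) : Finset ℚ := A.image (fun p : ℤ × ℤ => (p.2 : ℚ))

/-- the largest size of a projection of `A` with slope `∞` or in `S` -/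
def big (S : Finset ℚ) (A : Finset (ℤ × ℤ)) : ℕ :=
  max (projInf A).card (S.sup fun r => (proj r A).card)

theorem result :
    (∀ S : Finset ℚ, (-1 : ℚ) ∉ S → ∃ C : ℕ, ∀ A : Finset (ℤ × ℤ), A.Nonempty → ∀ K : ℝ,
      ((A + A).card : ℝ) ≤ K * A.card →
      ((proj (-1) A).card : ℝ) ^ S.card ≤
        K ^ C * ((projInf A).card * ∏ r ∈ S, ((proj r A).card : ℝ))) ∧
    (∀ ε : ℝ, 0 < ε → ∃ S : Finset ℚ, (-1 : ℚ) ∉ S ∧ ∃ δ : ℝ, 0 < δ ∧ ∀ A : Finset (ℤ × ℤ),
      ((A + A).card : ℝ) ≤ (A.card : ℝ) ^ (1 + δ) →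
      ((proj (-1) A).card : ℝ) ≤ (big S A : ℝ) ^ (1 + ε)) ∧
    (∀ ε : ℝ, 0 < ε → ∃ S : Finset ℚ, (-1 : ℚ) ∉ S ∧ ∃ δ : ℝ, 0 < δ ∧ ∀ A : Finset (ℤ × ℤ),
      Set.InjOn (fun p : ℤ × ℤ => p.1 - p.2) (A : Set (ℤ × ℤ)) →
      (A.card : ℝ) ^ (3 - δ) ≤ (A.addEnergy A : ℕ) →
      ((proj (-1) A).card : ℝ) ≤ (big S A : ℝ) ^ (1 + ε)) ∧
    (∀ S : Finset ℚ, (-1 : ℚ) ∉ S → ∀ m : ℕ, 1 ≤ m → ∃ A : Finset (ℤ × ℤ), A.Nonempty ∧
      (A + A).card ≤ 2 ^ (S.card + 1) * A.card ∧ A.card = m ^ (S.card + 1) ∧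
      (proj (-1) A).card = m ^ (S.card + 1) ∧ (projInf A).card ≤ m ^ S.card ∧
      ∀ r ∈ S, (proj r A).card ≤ m ^ S.card) :=
  ⟨Pool.Agent.H217R3.AK.part1, Pool.Agent.H217R3.AK.part2, Pool.Agent.H217R3.AK.part3,
    Pool.Agent.H217R3.AK.part4⟩

end Pool.Agent.Results.MP_169869_co.StructuredSets
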